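import Pool.Agent.Q150.MeshB

/-!
# Optimal balanced 4-way partitions of the five-point stencil mesh

For `X = 64, 256, 1024, 2048` there are perfectly balanced 4-way partitions which are cheaper than
the conjectured optimum.
-/

namespace Pool.Agent.Results.MP_d1f6bb_co.CheaperPartitions

open Q150.Mesh

/-- There are perfectly balanced 4-way partitions of the `X × X` mesh of cost at most `221`, `877`,
`3499`, `6995` for `X = 64, 256, 1024, 2048`; hence the conjectured equalities `V(64) = 222`,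
`V(256) = 878`, `V(1024) = 3500` and `V(2048) = 6996` are all false. More generally, let `h`, `a`,
`s` be natural numbers with `a (a + 1) / 2 = h² + s`, `2 s < a` and
`⌊(a + 1) / 2⌋ < h ≤ s + ⌊(a + 1) / 2⌋`; then the `2h × 2h` mesh has a perfectly balanced 4-way
partition of cost at most `4 h + 2 a + 3`. -/
theorem result :
    ((∃ f : Pt 64 → Fin 4, Balanced f ∧ cost f ≤ 221) ∧
      (∃ f : Pt 256 → Fin 4, Balanced f ∧ cost f ≤ 877) ∧
      (∃ f : Pt 1024 → Fin 4, Balanced f ∧ cost f ≤ 3499) ∧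
      (∃ f : Pt 2048 → Fin 4, Balanced f ∧ cost f ≤ 6995)) ∧
    (V 64 < 222 ∧ V 256 < 878 ∧ V 1024 < 3500 ∧ V 2048 < 6996) ∧
    ∀ h a s : ℕ, a * (a + 1) = 2 * h * h + 2 * s → 2 * s + 1 ≤ a → (a + 1) / 2 + 1 ≤ h →
      h ≤ s + (a + 1) / 2 → ∃ f : Pt (2 * h) → Fin 4, Balanced f ∧ cost f ≤ 4 * h + 2 * a + 3 :=
  ⟨⟨m64, m256, m1024, m2048⟩,
    ⟨Nat.lt_succ_of_le (V_le m64), Nat.lt_succ_of_le (V_le m256), Nat.lt_succ_of_le (V_le m1024),
      Nat.lt_succ_of_le (V_le m2048)⟩,
    general⟩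

end Pool.Agent.Results.MP_d1f6bb_co.CheaperPartitions
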